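import Pool.Agent.H613T.LinCov8

/-!
# `f_all(r) ≥ 2 f(r)`

The definitions are those of the frozen statements of MP_8b8ab9_co (`Pool.Prelude.Def_F_7905cbea`):
`minDensity n r` is the least value of `|V| |B(n,r)| / 2^n` over the linear subspaces `V` of `F_2^n`
with `V + B(n,r) = F_2^n`, `f_all r` is its limsup and `f r` its liminf as `n → ∞`.

Proof. `minDensity n r = |B(n,r)| / 2^c(n)`, `c(n)` the largest codimension. As `c` is unbounded, it
increases infinitely often from `n` to `n + 1`; then the density at `n` is about twice the density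
at `n + 1` or more.
-/

set_option autoImplicit false

namespace Pool.Agent.Results.MP_e73f90_co.TwiceLiminf

open N8b55e67f

/-- `f_all(r) ≥ 2 f(r)` and `f_all(r) ≥ 2` for every `r ≥ 1`, and `f_all(1) = 2`. -/
theorem result : (∀ r : ℕ, 1 ≤ r → 2 * f r ≤ f_all r ∧ 2 ≤ f_all r) ∧ f_all 1 = 2 :=
  ⟨fun r hr => ⟨Pool.Agent.H613T.LC.two_f_le r hr, Pool.Agent.H613T.LC.two_le_f_all r hr⟩,
    Pool.Agent.H613T.LC.f_all_one⟩

end Pool.Agent.Results.MP_e73f90_co.TwiceLiminf
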